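import Pool.Agent.Q289.OC.Basic

/-!
# Project OC: random sets and the comparison with rates given by the Green function
-/

set_option autoImplicit false

namespace Pool.Agent.Q102.OC

open Q289.OC
open Equiv Finset
open scoped InnerProductSpace

theorem wtStm : WtStm := by
  classical
  intro n q h0 h1
  constructor
  · intro S
    unfold wt
    exact mul_nonneg (prod_nonneg fun x _ => h0 x)
      (prod_nonneg fun x _ => sub_nonneg.2 (h1 x))
  · intro T
    have h := Finset.prod_add q (fun x => if x ∈ T then 0 else 1 - q x) (univ : Finset (Fin n))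
    have hl : ∏ x, (q x + if x ∈ T then 0 else 1 - q x) = ∏ x ∈ T, q x := by
      rw [← Finset.prod_subset (Finset.subset_univ T)]
      · refine prod_congr rfl fun x hx => ?_
        rw [if_pos hx, add_zero]
      · intro x _ hx
        rw [if_neg hx]
        ring
    rw [hl, powerset_univ] at h
    rw [h, Finset.sum_filter]
    refine sum_congr rfl fun S _ => ?_
    split_ifs with hTS
    · unfold wt
      rw [Finset.compl_eq_univ_sdiff]
      congr 1
      refine prod_congr rfl fun x hx => ?_
      rw [if_neg]
      intro hxT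
      rw [Finset.mem_sdiff] at hx
      exact hx.2 (hTS hxT)
    · rw [Finset.not_subset] at hTS
      obtain ⟨x, hx, hxS⟩ := hTS
      symm
      apply mul_eq_zero_of_right
      apply Finset.prod_eq_zero (i := x)
      · rw [Finset.mem_sdiff]
        exact ⟨mem_univ _, hxS⟩
      · rw [if_pos hx]

theorem randStm (h : TraceStm) (hw : WtStm) : RandStm := by
  classical
  intro n K G θ a hM hKG hsym hpos hdiag hθ ha hle W _ _ ρ hρ v
  set q : Fin n → ℝ := fun x => a * θ * G x x with hq
  have haθ : 0 < a * θ := mul_pos ha hθ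
  have hq0 : ∀ x, 0 < q x := fun x => mul_pos haθ (hdiag x)
  obtain ⟨w0, w1⟩ := hw n q (fun x => (hq0 x).le) hle
  choose r hr0 hr1 hr2 using fun S => h n K G hM hKG hsym hpos hdiag S
  have hD := hρ.DD_nonneg v
  have hone : ∑ S, wt q S = 1 := by
    have := w1 ∅
    simpa using this
  have key : ∀ x y, a ^ 2 * θ ^ 2 * max 0 (G x y - a * θ * ∑ z, G x z * G z y) * DD ρ v x y ≤
      ∑ S, wt q S * (if x ∈ S ∧ y ∈ S then r S x y else 0) * DD ρ v x y := by
    intro x y
    by_cases hxy : x = y
    · subst hxy
      simp [DD_self]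
    rw [← Finset.sum_mul]
    apply mul_le_mul_of_nonneg_right _ (hD x y)
    have hnn : ∀ S, 0 ≤ wt q S * (if x ∈ S ∧ y ∈ S then r S x y else 0) := by
      intro S
      apply mul_nonneg (w0 S)
      split_ifs
      · exact hr0 S x y
      · exact le_rfl
    have ha2 : 0 < a ^ 2 * θ ^ 2 := by positivity
    rw [mul_max_of_nonneg _ _ ha2.le, mul_zero]
    apply max_le
    · exact sum_nonneg fun S _ => hnn S
    have hGG : 0 < G x x * G y y := mul_pos (hdiag x) (hdiag y)
    -- lower bound by the moments
    have h1 : ∑ S, wt q S * (if x ∈ S ∧ y ∈ S then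
        (G x y - ∑ z ∈ (S.erase x).erase y, G x z * G z y / G z z) / (G x x * G y y) else 0) ≤
        ∑ S, wt q S * (if x ∈ S ∧ y ∈ S then r S x y else 0) := by
      refine sum_le_sum fun S _ => mul_le_mul_of_nonneg_left ?_ (w0 S)
      split_ifs with hS
      · exact hr1 S x hS.1 y hS.2 hxy
      · exact le_rfl
    refine le_trans ?_ h1
    have m2 : ∑ S, (if x ∈ S ∧ y ∈ S then wt q S else 0) = q x * q y := by
      have := w1 {x, y}
      rw [Finset.prod_pair hxy, Finset.sum_filter] at this
      rw [← this]
      refine sum_congr rfl fun S _ => ?_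
      simp [Finset.insert_subset_iff]
    have m3 : ∀ z, z ≠ x → z ≠ y →
        ∑ S, (if x ∈ S ∧ y ∈ S ∧ z ∈ S then wt q S else 0) = q x * q y * q z := by
      intro z hzx hzy
      have := w1 {x, y, z}
      rw [Finset.prod_insert (by simp [hxy, Ne.symm hzx]), Finset.prod_pair (Ne.symm hzy),
        Finset.sum_filter] at this
      rw [mul_assoc, ← this]
      refine sum_congr rfl fun S _ => ?_
      simp [Finset.insert_subset_iff]
    have h2 : ∑ S, wt q S * (if x ∈ S ∧ y ∈ S then
        (G x y - ∑ z ∈ (S.erase x).erase y, G x z * G z y / G z z) / (G x x * G y y) else 0) =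
        (G x y * (q x * q y) - ∑ z ∈ (univ.erase x).erase y,
          G x z * G z y / G z z * (q x * q y * q z)) / (G x x * G y y) := by
      have e1 : ∀ S, wt q S * (if x ∈ S ∧ y ∈ S then
          (G x y - ∑ z ∈ (S.erase x).erase y, G x z * G z y / G z z) / (G x x * G y y) else 0) =
          (G x y * (if x ∈ S ∧ y ∈ S then wt q S else 0) -
            ∑ z ∈ (univ.erase x).erase y, G x z * G z y / G z z *
              (if x ∈ S ∧ y ∈ S ∧ z ∈ S then wt q S else 0)) / (G x x * G y y) := by
        intro S
        by_cases hS : x ∈ S ∧ y ∈ S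
        · rw [if_pos hS, if_pos hS]
          have e2 : ∑ z ∈ (univ.erase x).erase y, G x z * G z y / G z z *
              (if x ∈ S ∧ y ∈ S ∧ z ∈ S then wt q S else 0) =
              wt q S * ∑ z ∈ (S.erase x).erase y, G x z * G z y / G z z := by
            rw [Finset.mul_sum]
            have hsub : (S.erase x).erase y ⊆ (univ.erase x).erase y :=
              Finset.erase_subset_erase _ (Finset.erase_subset_erase _ (subset_univ S))
            rw [← Finset.sum_subset hsub]
            · refine sum_congr rfl fun z hz => ?_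
              have hzS : z ∈ S := Finset.mem_of_mem_erase (Finset.mem_of_mem_erase hz)
              rw [if_pos ⟨hS.1, hS.2, hzS⟩]
              ring
            · intro z hz hz'
              rw [if_neg, mul_zero]
              rintro ⟨_, _, hzS⟩
              apply hz'
              rw [Finset.mem_erase, Finset.mem_erase] at hz ⊢
              exact ⟨hz.1, hz.2.1, hzS⟩
          rw [e2]
          ring
        · rw [if_neg hS, if_neg hS, mul_zero, mul_zero]
          rw [Finset.sum_eq_zero, sub_zero, zero_div]
          intro z _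
          rw [if_neg, mul_zero]
          rintro ⟨h1, h2, _⟩
          exact hS ⟨h1, h2⟩
      rw [sum_congr rfl fun S _ => e1 S, ← Finset.sum_div, Finset.sum_sub_distrib,
        ← Finset.mul_sum, m2, Finset.sum_comm]
      congr 2
      refine sum_congr rfl fun z hz => ?_
      rw [Finset.mem_erase, Finset.mem_erase] at hz
      rw [← Finset.mul_sum, m3 z hz.2.1 hz.1]
    rw [h2, le_div_iff₀ hGG]
    have h3 : ∀ z, G x z * G z y / G z z * (q x * q y * q z) =
        a * θ * (q x * q y) * (G x z * G z y) := by
      intro z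
      have := (hdiag z).ne'
      simp only [hq]
      field_simp
    rw [sum_congr rfl fun z _ => h3 z, ← Finset.mul_sum]
    have h4 : ∑ z ∈ (univ.erase x).erase y, G x z * G z y ≤ ∑ z, G x z * G z y := by
      apply Finset.sum_le_sum_of_subset_of_nonneg
      · exact subset_univ _
      · intro z _ _
        exact mul_nonneg (hpos x z) (hpos z y)
    have h5 : a * θ * (q x * q y) * ∑ z ∈ (univ.erase x).erase y, G x z * G z y ≤
        a * θ * (q x * q y) * ∑ z, G x z * G z y := by
      apply mul_le_mul_of_nonneg_left h4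
      have := hq0 x
      have := hq0 y
      positivity
    have h6 : q x * q y = a ^ 2 * θ ^ 2 * (G x x * G y y) := by
      simp only [hq]
      ring
    rw [h6] at h5 ⊢
    linarith
  have hsum : ∀ S, ∑ x, ∑ y, (if x ∈ S ∧ y ∈ S then r S x y else 0) * DD ρ v x y ≤
      ∑ x, ∑ y, -K x y * DD ρ v x y := by
    intro S
    refine le_trans (le_of_eq ?_) (hr2 S W ρ hρ v)
    rw [← Finset.sum_subset (subset_univ S)]
    · refine sum_congr rfl fun x hx => ?_
      rw [← Finset.sum_subset (subset_univ S)]
      · refine sum_congr rfl fun y hy => ?_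
        rw [if_pos ⟨hx, hy⟩]
      · intro y _ hy
        rw [if_neg (fun h => hy h.2), zero_mul]
    · intro x _ hx
      refine Finset.sum_eq_zero fun y _ => ?_
      rw [if_neg (fun h => hx h.1), zero_mul]
  calc ∑ x, ∑ y, a ^ 2 * θ ^ 2 * max 0 (G x y - a * θ * ∑ z, G x z * G z y) * DD ρ v x y
      ≤ ∑ x, ∑ y, ∑ S, wt q S * (if x ∈ S ∧ y ∈ S then r S x y else 0) * DD ρ v x y :=
        sum_le_sum fun x _ => sum_le_sum fun y _ => key x y
    _ = ∑ S, wt q S * ∑ x, ∑ y, (if x ∈ S ∧ y ∈ S then r S x y else 0) * DD ρ v x y := by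
        rw [sum_congr rfl fun x _ => Finset.sum_comm, Finset.sum_comm]
        refine sum_congr rfl fun S _ => ?_
        rw [Finset.mul_sum]
        refine sum_congr rfl fun x _ => ?_
        rw [Finset.mul_sum]
        refine sum_congr rfl fun y _ => ?_
        ring
    _ ≤ ∑ S, wt q S * ∑ x, ∑ y, -K x y * DD ρ v x y :=
        sum_le_sum fun S _ => mul_le_mul_of_nonneg_left (hsum S) (w0 S)
    _ = ∑ x, ∑ y, -K x y * DD ρ v x y := by
        rw [← Finset.sum_mul, hone, one_mul]

end Pool.Agent.Q102.OC
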